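import Pool.Agent.Lib.MP_95cf14_ag.LI.Step

/-!
# Level curves of `p` when `p` is constant or injective on each vertical line
-/

namespace Pool.Agent.Lib.MP_95cf14_ag.LI

/-- a strictly increasing continuous surjection of the real line has a continuous inverse -/
private theorem invB {g : ℝ → ℝ} (hm : StrictMono g) (hs : Function.Surjective g) :
    ∃ Y : ℝ → ℝ, Continuous Y ∧ ∀ c, g (Y c) = c := by
  let e := hm.orderIsoOfSurjective _ hs
  exact ⟨e.symm, e.symm.continuous, fun c => e.apply_symm_apply c⟩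

private theorem dyB {p px py : ℝ × ℝ → ℝ}
    (hp : ∀ z, HasFDerivAt p (px z • ContinuousLinearMap.fst ℝ ℝ ℝ + py z • ContinuousLinearMap.snd ℝ ℝ ℝ) z)
    (x y : ℝ) : HasDerivAt (fun y => p (x, y)) (py (x, y)) y := by
  have h3 : HasDerivAt (fun y => (x, y)) ((0 : ℝ), (1 : ℝ)) y :=
    (hasDerivAt_const y x).prodMk (hasDerivAt_id y)
  have h4 := (hp (x, y)).comp_hasDerivAt y h3
  have h5 : (px (x, y) • ContinuousLinearMap.fst ℝ ℝ ℝ +
      py (x, y) • ContinuousLinearMap.snd ℝ ℝ ℝ) ((0 : ℝ), (1 : ℝ)) = py (x, y) := by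
    change px (x, y) * 0 + py (x, y) * 1 = _
    ring
  rw [h5] at h4
  exact h4

private theorem dxB {p px py : ℝ × ℝ → ℝ}
    (hp : ∀ z, HasFDerivAt p (px z • ContinuousLinearMap.fst ℝ ℝ ℝ + py z • ContinuousLinearMap.snd ℝ ℝ ℝ) z)
    (x y : ℝ) : HasDerivAt (fun x => p (x, y)) (px (x, y)) x := by
  have h3 : HasDerivAt (fun x => (x, y)) ((1 : ℝ), (0 : ℝ)) x :=
    (hasDerivAt_id x).prodMk (hasDerivAt_const x y)
  have h4 := (hp (x, y)).comp_hasDerivAt x h3
  have h5 : (px (x, y) • ContinuousLinearMap.fst ℝ ℝ ℝ +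
      py (x, y) • ContinuousLinearMap.snd ℝ ℝ ℝ) ((1 : ℝ), (0 : ℝ)) = px (x, y) := by
    change px (x, y) * 1 + py (x, y) * 0 = _
    ring
  rw [h5] at h4
  exact h4

private theorem contB {p px py : ℝ × ℝ → ℝ}
    (hp : ∀ z, HasFDerivAt p (px z • ContinuousLinearMap.fst ℝ ℝ ℝ + py z • ContinuousLinearMap.snd ℝ ℝ ℝ) z) :
    Continuous p := continuous_iff_continuousAt.mpr fun z => (hp z).continuousAt

private theorem zeroB {p px py : ℝ × ℝ → ℝ}
    (hp : ∀ z, HasFDerivAt p (px z • ContinuousLinearMap.fst ℝ ℝ ℝ + py z • ContinuousLinearMap.snd ℝ ℝ ℝ) z)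
    {x : ℝ} (hc : ∀ y, p (x, y) = p (x, 0)) (y : ℝ) : py (x, y) = 0 := by
  have h1 := dyB hp x y
  have h2 : HasDerivAt (fun y => p (x, y)) 0 y := by
    have e : (fun y => p (x, y)) = fun _ => p (x, 0) := funext hc
    rw [e]
    exact hasDerivAt_const y _
  exact h1.unique h2

private theorem no_zeroB (p px py q qx qy : ℝ × ℝ → ℝ)
    (hp : ∀ z, HasFDerivAt p (px z • ContinuousLinearMap.fst ℝ ℝ ℝ + py z • ContinuousLinearMap.snd ℝ ℝ ℝ) z)
    (hq : ∀ z, HasFDerivAt q (qx z • ContinuousLinearMap.fst ℝ ℝ ℝ + qy z • ContinuousLinearMap.snd ℝ ℝ ℝ) z)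
    (hJ : ∀ z, 0 < px z * qy z - py z * qx z)
    (hup : ∀ x, (Function.Injective fun y => p (x, y)) → Function.Surjective fun y => p (x, y))
    (hu : ∀ x K, (∀ y, qy (x, y) ≠ 0) → (∃ y, q (x, y) < K) ∧ ∃ y, K < q (x, y))
    {x₀ x₁ : ℝ} (h01 : x₀ < x₁) (h0 : ∀ y, p (x₀, y) = p (x₀, 0))
    (hm : ∀ x ∈ Set.Ioc x₀ x₁, StrictMono fun y => p (x, y)) : False := by
  have hpc := contB hp
  have hqc := contB hq
  have hqy : ∀ y, qy (x₀, y) ≠ 0 := by
    intro y hy
    have := hJ (x₀, y)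
    rw [hy, zeroB hp h0 y] at this
    simp at this
  have hx1 : x₁ ∈ Set.Ioc x₀ x₁ := ⟨h01, le_refl _⟩
  obtain ⟨Y, hYc, hY⟩ := invB (hm x₁ hx1) (hup x₁ (hm x₁ hx1).injective)
  have key : ∀ y, q (x₁, Y (p (x₀, 0))) ≤ q (x₀, y) := by
    intro y
    have hlim1 : Filter.Tendsto (fun x => q (x₁, Y (p (x, y))))
        (nhdsWithin x₀ (Set.Ioi x₀)) (nhds (q (x₁, Y (p (x₀, 0))))) := by
      have hc1 : Continuous fun x => q (x₁, Y (p (x, y))) := by
        apply hqc.comp
        apply Continuous.prodMk continuous_const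
        exact hYc.comp (hpc.comp (Continuous.prodMk continuous_id continuous_const))
      have h2 := hc1.tendsto x₀
      rw [h0 y] at h2
      exact h2.mono_left nhdsWithin_le_nhds
    have hlim2 : Filter.Tendsto (fun x => q (x, y)) (nhdsWithin x₀ (Set.Ioi x₀))
        (nhds (q (x₀, y))) := by
      have hc1 : Continuous fun x => q (x, y) := hqc.comp (Continuous.prodMk continuous_id continuous_const)
      exact (hc1.tendsto x₀).mono_left nhdsWithin_le_nhds
    apply le_of_tendsto_of_tendsto hlim1 hlim2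
    have hev : ∀ᶠ x in nhdsWithin x₀ (Set.Ioi x₀), x ∈ Set.Ioo x₀ x₁ := Ioo_mem_nhdsGT h01
    filter_upwards [hev] with x hx
    have hm' : ∀ t ∈ Set.Icc x x₁, StrictMono fun y => p (t, y) :=
      fun t ht => hm t ⟨lt_of_lt_of_le hx.1 ht.1, ht.2⟩
    exact (stepB p px py q qx qy hp hq hJ hx.2 hm'
      (fun t ht => hup t (hm' t ht).injective) (hY (p (x, y))).symm).le
  obtain ⟨y, hy⟩ := (hu x₀ (q (x₁, Y (p (x₀, 0)))) hqy).1
  exact absurd (key y) (not_le.mpr hy)

/-- the derivative of `-q` -/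
private theorem neg_qB {q qx qy : ℝ × ℝ → ℝ}
    (hq : ∀ z, HasFDerivAt q (qx z • ContinuousLinearMap.fst ℝ ℝ ℝ +
      qy z • ContinuousLinearMap.snd ℝ ℝ ℝ) z) (z : ℝ × ℝ) :
    HasFDerivAt (fun z => -q z) ((-qx z) • ContinuousLinearMap.fst ℝ ℝ ℝ +
      (-qy z) • ContinuousLinearMap.snd ℝ ℝ ℝ) z := by
  have h := (hq z).neg
  have e : (-qx z) • ContinuousLinearMap.fst ℝ ℝ ℝ + (-qy z) • ContinuousLinearMap.snd ℝ ℝ ℝ =
      -(qx z • ContinuousLinearMap.fst ℝ ℝ ℝ + qy z • ContinuousLinearMap.snd ℝ ℝ ℝ) := by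
    apply ContinuousLinearMap.ext
    intro w
    change (-qx z) * w.1 + (-qy z) * w.2 = -(qx z * w.1 + qy z * w.2)
    ring
  rw [e]
  exact h

private theorem neg_uB {q qy : ℝ × ℝ → ℝ}
    (hu : ∀ x K, (∀ y, qy (x, y) ≠ 0) → (∃ y, q (x, y) < K) ∧ ∃ y, K < q (x, y)) (x K : ℝ)
    (h : ∀ y, -qy (x, y) ≠ 0) : (∃ y, -q (x, y) < K) ∧ ∃ y, K < -q (x, y) := by
  obtain ⟨⟨y, hy⟩, ⟨y', hy'⟩⟩ := hu x (-K) (fun y => neg_ne_zero.mp (h y))
  exact ⟨⟨y', by linarith⟩, ⟨y, by linarith⟩⟩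

private theorem neg_inj {g : ℝ → ℝ} (h : Function.Injective fun y => -g y) : Function.Injective g := by
  intro a b hab
  apply h
  change -g a = -g b
  rw [hab]

private theorem neg_upB {p : ℝ × ℝ → ℝ}
    (hup : ∀ x, (Function.Injective fun y => p (x, y)) → Function.Surjective fun y => p (x, y)) (x : ℝ)
    (h : Function.Injective fun y => -p (x, y)) : Function.Surjective fun y => -p (x, y) := by
  intro c
  obtain ⟨y, hy⟩ := hup x (neg_inj h) (-c)
  refine ⟨y, ?_⟩
  change p (x, y) = -c at hy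
  change -p (x, y) = c
  rw [hy, neg_neg]

/-- one direction of monotonicity on a strip -/
private theorem sign2B {p : ℝ × ℝ → ℝ} (hc : Continuous p) {S : Set ℝ} (hS : S.OrdConnected)
    (hne : ∀ x ∈ S, Function.Injective fun y => p (x, y)) :
    (∀ x ∈ S, StrictMono fun y => p (x, y)) ∨ ∀ x ∈ S, StrictMono fun y => -p (x, y) := by
  have hcx : ∀ x, Continuous fun y => p (x, y) := fun x => hc.comp (Continuous.prodMk continuous_const continuous_id)
  have hd : ∀ x ∈ S, (StrictMono fun y => p (x, y)) ∨ StrictAnti fun y => p (x, y) :=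
    fun x hx => (hcx x).strictMono_of_inj (hne x hx)
  have hdc : Continuous fun x => p (x, 1) - p (x, 0) :=
    (hc.comp (Continuous.prodMk continuous_id continuous_const)).sub
      (hc.comp (Continuous.prodMk continuous_id continuous_const))
  by_contra hcon
  push Not at hcon
  obtain ⟨⟨u, hu, hu'⟩, ⟨v, hv, hv'⟩⟩ := hcon
  have hu2 : p (u, 1) - p (u, 0) ≤ 0 := by
    rcases hd u hu with h | h
    · exact absurd h hu'
    · have := h (zero_lt_one' ℝ)
      simp only at this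
      linarith
  have hv2 : 0 ≤ p (v, 1) - p (v, 0) := by
    rcases hd v hv with h | h
    · have := h (zero_lt_one' ℝ)
      simp only at this
      linarith
    · exact absurd (fun a b hab => neg_lt_neg (h hab)) hv'
  have h1 : IsPreconnected S := hS.isPreconnected
  obtain ⟨w, hw, hw'⟩ := h1.intermediate_value hu hv hdc.continuousOn ⟨hu2, hv2⟩
  have h3 : p (w, 1) = p (w, 0) := by
    simp only at hw'
    linarith
  exact one_ne_zero (hne w hw h3)

private theorem no_zeroB' (p px py q qx qy : ℝ × ℝ → ℝ)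
    (hp : ∀ z, HasFDerivAt p (px z • ContinuousLinearMap.fst ℝ ℝ ℝ + py z • ContinuousLinearMap.snd ℝ ℝ ℝ) z)
    (hq : ∀ z, HasFDerivAt q (qx z • ContinuousLinearMap.fst ℝ ℝ ℝ + qy z • ContinuousLinearMap.snd ℝ ℝ ℝ) z)
    (hJ : ∀ z, 0 < px z * qy z - py z * qx z)
    (hd : ∀ x, (∀ y, p (x, y) = p (x, 0)) ∨ Function.Injective fun y => p (x, y))
    (hup : ∀ x, (Function.Injective fun y => p (x, y)) → Function.Surjective fun y => p (x, y))
    (hu : ∀ x K, (∀ y, qy (x, y) ≠ 0) → (∃ y, q (x, y) < K) ∧ ∃ y, K < q (x, y))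
    {x₀ x₁ : ℝ} (h01 : x₀ < x₁) (h0 : p (x₀, 1) = p (x₀, 0)) (hne : p (x₁, 1) ≠ p (x₁, 0)) : False := by
  have hpc := contB hp
  let Z : Set ℝ := {x | x ∈ Set.Icc x₀ x₁ ∧ p (x, 1) = p (x, 0)}
  have hZc : IsCompact Z := by
    have h1 : IsClosed {x : ℝ | p (x, 1) = p (x, 0)} :=
      isClosed_eq (hpc.comp (Continuous.prodMk continuous_id continuous_const))
        (hpc.comp (Continuous.prodMk continuous_id continuous_const))
    exact isCompact_Icc.inter_right h1
  have hZn : Z.Nonempty := ⟨x₀, ⟨le_refl _, h01.le⟩, h0⟩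
  obtain ⟨m, hm, hmax⟩ := hZc.exists_isGreatest hZn
  have hm1 : m < x₁ := by
    rcases lt_or_eq_of_le hm.1.2 with h | h
    · exact h
    · exact absurd (h ▸ hm.2) hne
  have hne' : ∀ x ∈ Set.Ioc m x₁, Function.Injective fun y => p (x, y) := by
    intro x hx
    rcases hd x with h | h
    · have h1 : x ≤ m := hmax ⟨⟨hm.1.1.trans hx.1.le, hx.2⟩, h 1⟩
      exact absurd hx.1 (not_lt.mpr h1)
    · exact h
  have hm0 : ∀ y, p (m, y) = p (m, 0) := by
    rcases hd m with h | h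
    · exact h
    · exact absurd (h hm.2) one_ne_zero
  rcases sign2B hpc Set.ordConnected_Ioc hne' with h | h
  · exact no_zeroB p px py q qx qy hp hq hJ hup hu hm1 hm0 h
  · refine no_zeroB (fun z => -p z) (fun z => -px z) (fun z => -py z) (fun z => -q z) (fun z => -qx z)
      (fun z => -qy z) (neg_qB hp) (neg_qB hq) (fun z => ?_) (neg_upB hup) (neg_uB hu) hm1
      (fun y => ?_) (fun x hx => h x hx)
    · have := hJ z
      nlinarith
    · change -p (m, y) = -p (m, 0)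
      rw [hm0 y]

/-- the mirror image -/
private theorem mirB {q qx qy : ℝ × ℝ → ℝ}
    (hq : ∀ z, HasFDerivAt q (qx z • ContinuousLinearMap.fst ℝ ℝ ℝ +
      qy z • ContinuousLinearMap.snd ℝ ℝ ℝ) z) (z : ℝ × ℝ) :
    HasFDerivAt (fun z : ℝ × ℝ => q (-z.1, z.2)) ((-qx (-z.1, z.2)) • ContinuousLinearMap.fst ℝ ℝ ℝ +
      (qy (-z.1, z.2)) • ContinuousLinearMap.snd ℝ ℝ ℝ) z := by
  have h1 : HasFDerivAt (fun z : ℝ × ℝ => (-z.1, z.2))
      ((-(ContinuousLinearMap.fst ℝ ℝ ℝ)).prod (ContinuousLinearMap.snd ℝ ℝ ℝ)) z :=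
    (hasFDerivAt_fst.neg).prodMk hasFDerivAt_snd
  have h2 := (hq (-z.1, z.2)).comp z h1
  have e : (-qx (-z.1, z.2)) • ContinuousLinearMap.fst ℝ ℝ ℝ +
      (qy (-z.1, z.2)) • ContinuousLinearMap.snd ℝ ℝ ℝ =
      ((qx (-z.1, z.2) • ContinuousLinearMap.fst ℝ ℝ ℝ +
        qy (-z.1, z.2) • ContinuousLinearMap.snd ℝ ℝ ℝ).comp
        ((-(ContinuousLinearMap.fst ℝ ℝ ℝ)).prod (ContinuousLinearMap.snd ℝ ℝ ℝ))) := by
    apply ContinuousLinearMap.ext
    intro w
    change (-qx (-z.1, z.2)) * w.1 + (qy (-z.1, z.2)) * w.2 =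
      qx (-z.1, z.2) * (-w.1) + qy (-z.1, z.2) * w.2
    ring
  rw [e]
  exact h2

private theorem zerosB (p px py q qx qy : ℝ × ℝ → ℝ)
    (hp : ∀ z, HasFDerivAt p (px z • ContinuousLinearMap.fst ℝ ℝ ℝ + py z • ContinuousLinearMap.snd ℝ ℝ ℝ) z)
    (hq : ∀ z, HasFDerivAt q (qx z • ContinuousLinearMap.fst ℝ ℝ ℝ + qy z • ContinuousLinearMap.snd ℝ ℝ ℝ) z)
    (hJ : ∀ z, 0 < px z * qy z - py z * qx z)
    (hd : ∀ x, (∀ y, p (x, y) = p (x, 0)) ∨ Function.Injective fun y => p (x, y))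
    (hup : ∀ x, (Function.Injective fun y => p (x, y)) → Function.Surjective fun y => p (x, y))
    (hu : ∀ x K, (∀ y, qy (x, y) ≠ 0) → (∃ y, q (x, y) < K) ∧ ∃ y, K < q (x, y))
    {s t : ℝ} (hs : p (s, 1) = p (s, 0)) (ht : p (t, 1) ≠ p (t, 0)) : False := by
  rcases lt_trichotomy s t with h | h | h
  · exact no_zeroB' p px py q qx qy hp hq hJ hd hup hu h hs ht
  · exact ht (h ▸ hs)
  · have hq2 : ∀ z : ℝ × ℝ, HasFDerivAt (fun z : ℝ × ℝ => -q (-z.1, z.2))
        ((- -qx (-z.1, z.2)) • ContinuousLinearMap.fst ℝ ℝ ℝ +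
        (-qy (-z.1, z.2)) • ContinuousLinearMap.snd ℝ ℝ ℝ) z :=
      neg_qB (q := fun z => q (-z.1, z.2)) (qx := fun z => -qx (-z.1, z.2))
        (qy := fun z => qy (-z.1, z.2)) (mirB hq)
    refine no_zeroB' (fun z => p (-z.1, z.2)) (fun z => -px (-z.1, z.2)) (fun z => py (-z.1, z.2))
      (fun z => -q (-z.1, z.2)) (fun z => - -qx (-z.1, z.2)) (fun z => -qy (-z.1, z.2)) (mirB hp) hq2
      (fun z => ?_)
      (fun x => hd (-x)) (fun x hx => hup (-x) hx) ?_ (x₀ := -s) (x₁ := -t) (neg_lt_neg h) ?_ ?_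
    · have := hJ (-z.1, z.2)
      nlinarith
    · intro x K hK
      exact neg_uB (q := q) (qy := qy) hu (-x) K hK
    · change p (- -s, 1) = p (- -s, 0)
      rw [neg_neg, hs]
    · change p (- -t, 1) ≠ p (- -t, 0)
      rw [neg_neg]
      exact ht

private theorem injB (g dg : ℝ → ℝ) (hg : ∀ x, HasDerivAt g (dg x) x) (hdg : ∀ x, dg x ≠ 0) :
    Function.Injective g := by
  intro x y hxy
  by_contra hne
  rcases lt_or_gt_of_ne hne with h | h
  · obtain ⟨c, -, hc⟩ := exists_hasDerivAt_eq_zero h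
      (fun t _ => (hg t).continuousAt.continuousWithinAt) hxy (fun t _ => hg t)
    exact hdg c hc
  · obtain ⟨c, -, hc⟩ := exists_hasDerivAt_eq_zero h
      (fun t _ => (hg t).continuousAt.continuousWithinAt) hxy.symm (fun t _ => hg t)
    exact hdg c hc

private theorem core_posB (p px py q qx qy : ℝ × ℝ → ℝ)
    (hp : ∀ z, HasFDerivAt p (px z • ContinuousLinearMap.fst ℝ ℝ ℝ + py z • ContinuousLinearMap.snd ℝ ℝ ℝ) z)
    (hq : ∀ z, HasFDerivAt q (qx z • ContinuousLinearMap.fst ℝ ℝ ℝ + qy z • ContinuousLinearMap.snd ℝ ℝ ℝ) z)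
    (hJ : ∀ z, 0 < px z * qy z - py z * qx z)
    (hd : ∀ x, (∀ y, p (x, y) = p (x, 0)) ∨ Function.Injective fun y => p (x, y))
    (hup : ∀ x, (Function.Injective fun y => p (x, y)) → Function.Surjective fun y => p (x, y))
    (hu : ∀ x K, (∀ y, qy (x, y) ≠ 0) → (∃ y, q (x, y) < K) ∧ ∃ y, K < q (x, y)) :
    Function.Injective fun z : ℝ × ℝ => (p z, q z) := by
  by_cases hz : ∃ s, p (s, 1) = p (s, 0)
  · obtain ⟨s, hs⟩ := hz
    have hconst : ∀ x y, p (x, y) = p (x, 0) := by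
      intro x
      rcases hd x with h | h
      · exact h
      · exact (zerosB p px py q qx qy hp hq hJ hd hup hu hs (fun h1 => one_ne_zero (h h1))).elim
    have hb0 : ∀ x y, py (x, y) = 0 := fun x y => zeroB hp (hconst x) y
    have hJ0 : ∀ x y, 0 < px (x, y) * qy (x, y) := by
      intro x y
      have := hJ (x, y)
      rw [hb0 x y] at this
      linarith
    rintro ⟨x, y⟩ ⟨x', y'⟩ h
    simp only [Prod.mk.injEq] at h
    have hx : x = x' := by
      apply injB (fun x => p (x, 0)) (fun x => px (x, 0)) (fun x => dxB hp x 0)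
        (fun x hx => by
          have := hJ0 x 0
          rw [hx, zero_mul] at this
          exact lt_irrefl _ this)
      change p (x, 0) = p (x', 0)
      rw [← hconst x y, ← hconst x' y']
      exact h.1
    subst hx
    have hy : y = y' := injB (fun y => q (x, y)) (fun y => qy (x, y)) (dyB hq x)
      (fun y hy => by
        have := hJ0 x y
        rw [hy, mul_zero] at this
        exact lt_irrefl _ this) h.2
    rw [hy]
  · push Not at hz
    have hne : ∀ x, Function.Injective fun y => p (x, y) := by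
      intro x
      rcases hd x with h | h
      · exact absurd (h 1) (hz x)
      · exact h
    have strict : ∀ x y x' y', x < x' → p (x, y) = p (x', y') → q (x, y) ≠ q (x', y') := by
      intro x y x' y' hx he hqe
      rcases sign2B (contB hp) (S := Set.Icc x x') Set.ordConnected_Icc (fun t _ => hne t) with h | h
      · have h1 := stepB p px py q qx qy hp hq hJ hx h (fun t _ => hup t (hne t)) he
        rw [hqe] at h1
        exact lt_irrefl _ h1
      · have h1 := stepB (fun z => -p z) (fun z => -px z) (fun z => -py z) (fun z => -q z)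
          (fun z => -qx z) (fun z => -qy z) (neg_qB hp) (neg_qB hq)
          (fun z => by have := hJ z; nlinarith) hx h
          (fun t ht => neg_upB hup t (h t ht).injective) (y₁ := y) (y₂ := y')
          (by rw [he])
        rw [hqe] at h1
        exact lt_irrefl _ h1
    rintro ⟨x, y⟩ ⟨x', y'⟩ h
    simp only [Prod.mk.injEq] at h
    rcases lt_trichotomy x x' with hx | hx | hx
    · exact absurd h.2 (strict x y x' y' hx h.1)
    · subst hx
      have hy : y = y' := hne x h.1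
      rw [hy]
    · exact absurd h.2.symm (strict x' y' x y hx h.1.symm)

theorem coreB (p px py q qx qy : ℝ × ℝ → ℝ)
    (hp : ∀ z, HasFDerivAt p (px z • ContinuousLinearMap.fst ℝ ℝ ℝ + py z • ContinuousLinearMap.snd ℝ ℝ ℝ) z)
    (hq : ∀ z, HasFDerivAt q (qx z • ContinuousLinearMap.fst ℝ ℝ ℝ + qy z • ContinuousLinearMap.snd ℝ ℝ ℝ) z)
    (hc : Continuous fun z => px z * qy z - py z * qx z)
    (hJ : ∀ z, px z * qy z - py z * qx z ≠ 0)
    (hd : ∀ x, (∀ y, p (x, y) = p (x, 0)) ∨ Function.Injective fun y => p (x, y))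
    (hup : ∀ x, (Function.Injective fun y => p (x, y)) → Function.Surjective fun y => p (x, y))
    (hu : ∀ x K, (∀ y, qy (x, y) ≠ 0) → (∃ y, q (x, y) < K) ∧ ∃ y, K < q (x, y)) :
    Function.Injective fun z : ℝ × ℝ => (p z, q z) := by
  by_cases hpo : ∀ z : ℝ × ℝ, 0 < px z * qy z - py z * qx z
  · exact core_posB p px py q qx qy hp hq hpo hd hup hu
  · push Not at hpo
    obtain ⟨z₀, hz₀⟩ := hpo
    have hn : ∀ z : ℝ × ℝ, px z * qy z - py z * qx z < 0 := by
      intro z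
      by_contra hz
      push Not at hz
      obtain ⟨w, hw⟩ := mem_range_of_exists_le_of_exists_ge hc ⟨z₀, hz₀⟩ ⟨z, hz⟩
      exact hJ w hw
    have h1 := core_posB p px py (fun z => -q z) (fun z => -qx z) (fun z => -qy z) hp (neg_qB hq)
      (fun z => by have := hn z; nlinarith) hd hup (neg_uB hu)
    intro z w h
    apply h1
    simp only [Prod.mk.injEq] at h ⊢
    exact ⟨h.1, by rw [h.2]⟩

end Pool.Agent.Lib.MP_95cf14_ag.LI
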