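import Pool.Agent.Lib.MP_95cf14_ag.LC.Defs

/-! MP_95cf14_ag, LI. An injective real polynomial function is onto. -/

namespace Pool.Agent.Lib.MP_95cf14_ag.LI

open MvPolynomial Pool.Agent.Lib.MP_95cf14_ag.LC

private theorem surj_top (r : Polynomial ℝ) (hdeg : 0 < r.degree) (hmono : StrictMono fun y => r.eval y)
    (K : ℝ) : ∃ y, K ≤ r.eval y := by
  have ht := Polynomial.abs_tendsto_atTop r hdeg
  obtain ⟨y, hy1, hy2⟩ := ((ht.eventually (Filter.eventually_gt_atTop (|K| + |r.eval 0|))).and
    (Filter.eventually_ge_atTop 0)).exists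
  refine ⟨y, ?_⟩
  have h1 : r.eval 0 ≤ r.eval y := hmono.monotone hy2
  have h2 := le_abs_self K
  have h3 := abs_nonneg K
  have h4 := neg_abs_le (r.eval 0)
  have h5 := abs_nonneg (r.eval 0)
  rcases abs_cases (r.eval y) with ⟨h6, _⟩ | ⟨h6, _⟩ <;> rw [h6] at hy1 <;> linarith

private theorem surj_bot (r : Polynomial ℝ) (hmono : StrictMono fun y => r.eval y)
    (K : ℝ) : ∃ y, r.eval y ≤ K := by
  have hev : ∀ y, (-(r.comp (-Polynomial.X))).eval y = -(r.eval (-y)) := by
    intro y
    simp [Polynomial.eval_comp]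
  have hmono' : StrictMono fun y => (-(r.comp (-Polynomial.X))).eval y := by
    intro u v huv
    simp only [hev]
    exact neg_lt_neg (hmono (neg_lt_neg huv))
  have hdeg' : 0 < (-(r.comp (-Polynomial.X))).degree := by
    by_contra hcon
    have h1 := Polynomial.eq_C_of_degree_le_zero (not_lt.mp hcon)
    have h2 : (-(r.comp (-Polynomial.X))).eval 0 < (-(r.comp (-Polynomial.X))).eval 1 :=
      hmono' one_pos
    rw [h1, Polynomial.eval_C, Polynomial.eval_C] at h2
    exact lt_irrefl _ h2
  obtain ⟨y, hy⟩ := surj_top _ hdeg' hmono' (-K)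
  rw [hev] at hy
  exact ⟨-y, by linarith⟩

private theorem surj_mono (r : Polynomial ℝ) (hmono : StrictMono fun y => r.eval y) :
    Function.Surjective fun y => r.eval y := by
  have hdeg : 0 < r.degree := by
    by_contra hcon
    have h1 := Polynomial.eq_C_of_degree_le_zero (not_lt.mp hcon)
    have h2 : r.eval 0 < r.eval 1 := hmono one_pos
    rw [h1, Polynomial.eval_C, Polynomial.eval_C] at h2
    exact lt_irrefl _ h2
  intro K
  exact mem_range_of_exists_le_of_exists_ge r.continuous (surj_bot r hmono K)
    (surj_top r hdeg hmono K)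

theorem surjPoly (r : Polynomial ℝ) (h : Function.Injective fun y => r.eval y) :
    Function.Surjective fun y => r.eval y := by
  rcases r.continuous.strictMono_of_inj h with h1 | h1
  · exact surj_mono r h1
  · have h2 : StrictMono fun y => (-r).eval y := by
      intro u v huv
      simp only [Polynomial.eval_neg]
      exact neg_lt_neg (h1 huv)
    intro K
    obtain ⟨y, hy⟩ := surj_mono (-r) h2 (-K)
    refine ⟨y, ?_⟩
    simpa using hy

private noncomputable def lnB (f e : Fin 2 → ℝ) (x : ℝ) (i : Fin 2) : Polynomial ℝ :=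
  Polynomial.C (x * f i) + Polynomial.C (e i) * Polynomial.X

private theorem eval_lnB (R : MvPolynomial (Fin 2) ℝ) (f e : Fin 2 → ℝ) (x y : ℝ) :
    (aeval (lnB f e x) R).eval y = fr R f e (x, y) := by
  unfold fr
  induction R using MvPolynomial.induction_on with
  | C a => simp
  | add p q hp hq => rw [map_add, Polynomial.eval_add, hp, hq, map_add]
  | mul_X p i hp =>
    rw [map_mul, Polynomial.eval_mul, hp, map_mul, aeval_X, eval_X]
    congr 1
    simp [lnB]
    ring

/-- the restriction of `R` to a line is a polynomial, see `fr_unb` in LC/Unb.lean -/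
theorem surjB (R : MvPolynomial (Fin 2) ℝ) (f e : Fin 2 → ℝ) (x : ℝ)
    (h : Function.Injective fun y => fr R f e (x, y)) :
    Function.Surjective fun y => fr R f e (x, y) := by
  have h1 := surjPoly (aeval (lnB f e x) R) (by simpa only [eval_lnB] using h)
  simpa only [eval_lnB] using h1

end Pool.Agent.Lib.MP_95cf14_ag.LI
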