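import Pool.Agent.Lib.MP_95cf14_ag.LI.Core
import Pool.Agent.Lib.MP_95cf14_ag.LI.Surj
import Pool.Agent.Lib.MP_95cf14_ag.LC.Der
import Pool.Agent.Lib.MP_95cf14_ag.LC.Unb

/-! MP_95cf14_ag, LI. Reduction to vertical lines. -/

namespace Pool.Agent.Lib.MP_95cf14_ag.LI

open MvPolynomial Pool.Agent.Lib.MP_95cf14_ag.LC

private lemma fr_combB (P : Fin 2 → MvPolynomial (Fin 2) ℝ) (a b : ℝ) (f e : Fin 2 → ℝ)
    (z : ℝ × ℝ) : fr (C a * P 0 + C b * P 1) f e z = a * fr (P 0) f e z + b * fr (P 1) f e z := by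
  simp only [fr, map_add, map_mul, eval_C]

private lemma dir_combB (P : Fin 2 → MvPolynomial (Fin 2) ℝ) (a b : ℝ) (u f e : Fin 2 → ℝ)
    (z : ℝ × ℝ) : dir (C a * P 0 + C b * P 1) u f e z =
      a * dir (P 0) u f e z + b * dir (P 1) u f e z := by
  simp only [dir, map_add, pderiv_C_mul, map_mul, eval_C]
  ring

theorem mainB (P : Fin 2 → MvPolynomial (Fin 2) ℝ) (hJ : ∀ v : Fin 2 → ℝ, eval v (jacobian P) ≠ 0)
    (α β : ℝ) (e : Fin 2 → ℝ) (hαβ : α ≠ 0 ∨ β ≠ 0) (he : e ≠ 0)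
    (h : ∀ v : Fin 2 → ℝ,
      (∀ t : ℝ, α * eval (v + t • e) (P 0) + β * eval (v + t • e) (P 1) =
        α * eval v (P 0) + β * eval v (P 1)) ∨
      Function.Injective fun t : ℝ => α * eval (v + t • e) (P 0) + β * eval (v + t • e) (P 1)) :
    Function.Injective (planeMap P) := by
  obtain ⟨f, hf⟩ : ∃ f : Fin 2 → ℝ, f = ![-(e 1), e 0] := ⟨_, rfl⟩
  have hf0 : f 0 = -(e 1) := by rw [hf]; rfl
  have hf1 : f 1 = e 0 := by rw [hf]; rfl
  have hD : f 0 * e 1 - f 1 * e 0 ≠ 0 := by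
    rw [hf0, hf1]
    intro h0
    apply he
    have h1 : e 0 = 0 := by nlinarith [sq_nonneg (e 0), sq_nonneg (e 1)]
    have h2 : e 1 = 0 := by nlinarith [sq_nonneg (e 0), sq_nonneg (e 1)]
    ext i
    fin_cases i
    · exact h1
    · exact h2
  have hαβ2 : α ^ 2 + β ^ 2 ≠ 0 := by
    intro h0
    rcases hαβ with h1 | h1
    · exact h1 (by nlinarith [sq_nonneg α, sq_nonneg β])
    · exact h1 (by nlinarith [sq_nonneg α, sq_nonneg β])
  obtain ⟨G, hG⟩ : ∃ G : MvPolynomial (Fin 2) ℝ, G = C α * P 0 + C β * P 1 := ⟨_, rfl⟩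
  obtain ⟨H, hH⟩ : ∃ H : MvPolynomial (Fin 2) ℝ, H = C (-β) * P 0 + C α * P 1 := ⟨_, rfl⟩
  have hfr : ∀ x t : ℝ, fr G f e (x, t) =
      α * eval (x • f + t • e) (P 0) + β * eval (x • f + t • e) (P 1) := by
    intro x t
    rw [hG, fr_combB]
    rfl
  have hcore := coreB (fr G f e) (dir G f f e) (dir G e f e) (fr H f e) (dir H f f e)
    (dir H e f e) (fr_fderiv G f e) (fr_fderiv H f e)
    (((dir_cont G f f e).mul (dir_cont H e f e)).sub
      ((dir_cont G e f e).mul (dir_cont H f f e)))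
    (by
      intro z
      have h1 : dir G f f e z * dir H e f e z - dir G e f e z * dir H f f e z =
          (α ^ 2 + β ^ 2) * (f 0 * e 1 - f 1 * e 0) *
            eval (z.1 • f + z.2 • e) (jacobian P) := by
        rw [hG, hH, dir_combB, dir_combB, dir_combB, dir_combB]
        simp only [dir, jacobian, map_sub, map_mul]
        ring
      rw [h1]
      exact mul_ne_zero (mul_ne_zero hαβ2 hD) (hJ _))
    (by
      intro x
      rcases h (x • f) with h1 | h1
      · left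
        intro y
        rw [hfr, hfr, h1 y, h1 0]
      · right
        intro y y' hy
        simp only [hfr] at hy
        exact h1 hy)
    (fun x hx => surjB G f e x hx)
    (fun x K hx => fr_unb H f e x hx K)
  -- coordinates
  have hco : ∀ v : Fin 2 → ℝ, ∃ z : ℝ × ℝ, z.1 • f + z.2 • e = v := by
    intro v
    refine ⟨((v 0 * e 1 - v 1 * e 0) / (f 0 * e 1 - f 1 * e 0),
      (f 0 * v 1 - f 1 * v 0) / (f 0 * e 1 - f 1 * e 0)), ?_⟩
    ext i
    fin_cases i
    · simp only [Pi.add_apply, Pi.smul_apply, smul_eq_mul, Fin.zero_eta, Fin.isValue]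
      rw [div_mul_eq_mul_div, div_mul_eq_mul_div, ← add_div, div_eq_iff hD]
      ring
    · simp only [Pi.add_apply, Pi.smul_apply, smul_eq_mul, Fin.mk_one, Fin.isValue]
      rw [div_mul_eq_mul_div, div_mul_eq_mul_div, ← add_div, div_eq_iff hD]
      ring
  intro v w hvw
  obtain ⟨z, hz⟩ := hco v
  obtain ⟨z', hz'⟩ := hco w
  have hP : ∀ i, fr (P i) f e z = fr (P i) f e z' := by
    intro i
    have h1 := congrFun hvw i
    simp only [fr, hz, hz']
    exact h1
  have hzz : z = z' := by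
    apply hcore
    simp only [hG, hH, fr_combB, hP]
  rw [← hz, ← hz', hzz]

end Pool.Agent.Lib.MP_95cf14_ag.LI
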