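import Mathlib

/-! MP_95cf14_ag, LI. The function `q` decreases to the right along a level curve of `p` (local form). -/

namespace Pool.Agent.Lib.MP_95cf14_ag.LI

open Filter Topology

private theorem loc_key {x y₀ : ℝ} {f : ℝ × ℝ → ℝ} {a b : ℝ}
    (hf : HasFDerivAt f (a • ContinuousLinearMap.fst ℝ ℝ ℝ + b • ContinuousLinearMap.snd ℝ ℝ ℝ) (x, y₀))
    {ε : ℝ} (hε : 0 < ε) {Z : ℝ → ℝ} (hZ : Tendsto Z (𝓝[>] x) (𝓝 y₀)) :
    ∀ᶠ t in 𝓝[>] x, |f (t, Z t) - f (x, y₀) - (a * (t - x) + b * (Z t - y₀))| ≤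
      ε * ((t - x) + |Z t - y₀|) := by
  have h1 := (hasFDerivAt_iff_isLittleO.1 hf).def hε
  have hφ : Tendsto (fun t => (t, Z t)) (𝓝[>] x) (𝓝 (x, y₀)) :=
    (tendsto_id.mono_left nhdsWithin_le_nhds).prodMk_nhds hZ
  filter_upwards [hφ.eventually h1, self_mem_nhdsWithin] with t ht ht0
  have ht1 : 0 < t - x := sub_pos.2 ht0
  change |f (t, Z t) - f (x, y₀) - (a * (t - x) + b * (Z t - y₀))| ≤
    ε * ‖((t, Z t) - (x, y₀) : ℝ × ℝ)‖ at ht
  refine ht.trans (mul_le_mul_of_nonneg_left ?_ hε.le)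
  rw [Prod.mk_sub_mk, Prod.norm_mk, Real.norm_eq_abs, Real.norm_eq_abs, abs_of_pos ht1]
  exact max_le (by linarith [abs_nonneg (Z t - y₀)]) (by linarith)

private theorem loc_pos {A B C D h k e₁ e₂ δ L ε : ℝ} (hJ : 0 < A * D - B * C) (hB : 0 < B)
    (hh : 0 < h) (hL : L = 2 * (|A| + B) / B) (hε : 0 < ε) (hε1 : ε ≤ B / 2)
    (hε2 : ε * ((1 + L) * (|D| + B)) < A * D - B * C)
    (h1 : A * h + B * k = e₁) (h2 : δ = C * h + D * k + e₂) (he1 : |e₁| ≤ ε * (h + |k|))
    (he2 : |e₂| ≤ ε * (h + |k|)) : δ < 0 := by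
  have hk : |k| ≤ L * h := by
    have h3 : B * |k| ≤ |A| * h + ε * (h + |k|) := by
      have h4 : B * k = e₁ - A * h := by linarith
      have h5 : B * |k| = |e₁ - A * h| := by rw [← h4, abs_mul, abs_of_pos hB]
      have h6 : |e₁ - A * h| ≤ |e₁| + |A * h| := abs_sub _ _
      rw [abs_mul, abs_of_pos hh] at h6
      linarith
    have h7 : (B / 2) * |k| ≤ (|A| + B) * h := by
      have h8 : ε * |k| ≤ (B / 2) * |k| := mul_le_mul_of_nonneg_right hε1 (abs_nonneg k)
      have h9 : ε * h ≤ B * h := mul_le_mul_of_nonneg_right (by linarith) hh.le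
      have h10 : ε * (h + |k|) = ε * h + ε * |k| := by ring
      have h11 : (|A| + B) * h = |A| * h + B * h := by ring
      have h12 : B * |k| = (B / 2) * |k| + (B / 2) * |k| := by ring
      linarith
    have h13 : L * h = (|A| + B) * h / (B / 2) := by
      rw [hL]
      field_simp
    rw [h13, le_div_iff₀ (by linarith)]
    linarith
  have hM : h + |k| ≤ (1 + L) * h := by linarith
  have hM' : ε * (h + |k|) ≤ ε * ((1 + L) * h) := mul_le_mul_of_nonneg_left hM hε.le
  have h3 : B * δ = -(A * D - B * C) * h + D * e₁ + B * e₂ := by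
    rw [h2, ← h1]
    ring
  have h4 : D * e₁ ≤ |D| * (ε * ((1 + L) * h)) := by
    have := (le_abs_self (D * e₁)).trans_eq (abs_mul D e₁)
    exact this.trans (mul_le_mul_of_nonneg_left (he1.trans hM') (abs_nonneg D))
  have h5 : B * e₂ ≤ B * (ε * ((1 + L) * h)) :=
    mul_le_mul_of_nonneg_left ((le_abs_self e₂).trans (he2.trans hM')) hB.le
  have h6 : B * δ ≤ (ε * ((1 + L) * (|D| + B)) - (A * D - B * C)) * h := by
    have h7 : (ε * ((1 + L) * (|D| + B)) - (A * D - B * C)) * h =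
        -(A * D - B * C) * h + |D| * (ε * ((1 + L) * h)) + B * (ε * ((1 + L) * h)) := by ring
    rw [h7, h3]
    linarith
  have h8 : (ε * ((1 + L) * (|D| + B)) - (A * D - B * C)) * h < 0 :=
    mul_neg_of_neg_of_pos (by linarith) hh
  by_contra hcon
  have h9 : 0 ≤ B * δ := mul_nonneg hB.le (not_lt.1 hcon)
  linarith

private theorem loc_zero {A C D h k e₁ e₂ δ ε : ℝ} (hA : 0 < |A|) (hJ : 0 < A * D)
    (hh : 0 < h) (hε : 0 < ε) (hε0 : ε ≤ 1) (hε1 : ε ≤ |A| / 2)
    (hε2 : ε * (2 * (|C| + 1) / |A| + 1) < |D|) (hAk : A * k ≤ 0)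
    (h1 : A * h = e₁) (h2 : δ = C * h + D * k + e₂) (he1 : |e₁| ≤ ε * (h + |k|))
    (he2 : |e₂| ≤ ε * (h + |k|)) : δ < 0 := by
  have h3 : |A| * h ≤ ε * (h + |k|) := by
    rw [← h1, abs_mul, abs_of_pos hh] at he1
    exact he1
  have h4 : |A| / 2 * h ≤ ε * |k| := by
    have h5 : ε * h ≤ |A| / 2 * h := mul_le_mul_of_nonneg_right hε1 hh.le
    have h6 : ε * (h + |k|) = ε * h + ε * |k| := by ring
    have h7 : |A| * h = |A| / 2 * h + |A| / 2 * h := by ring
    linarith
  have hk : 0 < |k| := by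
    rcases (abs_nonneg k).eq_or_lt with h5 | h5
    · rw [← h5, mul_zero] at h4
      have : 0 < |A| / 2 * h := by positivity
      linarith
    · exact h5
  have h5 : h ≤ 2 / |A| * (ε * |k|) := by
    have h6 : h = 2 / |A| * (|A| / 2 * h) := by field_simp
    rw [h6]
    exact mul_le_mul_of_nonneg_left h4 (by positivity)
  have h6 : D * k = -(|D| * |k|) := by
    have h7 : (A * D) * (D * k) ≤ 0 := by
      have : (A * D) * (D * k) = D ^ 2 * (A * k) := by ring
      rw [this]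
      exact mul_nonpos_of_nonneg_of_nonpos (sq_nonneg D) hAk
    have h8 : D * k ≤ 0 := by
      by_contra hcon
      have := mul_pos hJ (not_le.1 hcon)
      linarith
    rw [← abs_mul, abs_of_nonpos h8]
    ring
  have h7 : C * h ≤ |C| * h := mul_le_mul_of_nonneg_right (le_abs_self C) hh.le
  have h8 : e₂ ≤ ε * h + ε * |k| := by
    have := (le_abs_self e₂).trans he2
    linarith
  have h9 : ε * h ≤ 1 * h := mul_le_mul_of_nonneg_right hε0 hh.le
  have h10 : (|C| + 1) * h ≤ (|C| + 1) * (2 / |A| * (ε * |k|)) :=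
    mul_le_mul_of_nonneg_left h5 (by positivity)
  have h11 : (|C| + 1) * (2 / |A| * (ε * |k|)) + ε * |k| =
      ε * (2 * (|C| + 1) / |A| + 1) * |k| := by ring
  have h12 : ε * (2 * (|C| + 1) / |A| + 1) * |k| < |D| * |k| := mul_lt_mul_of_pos_right hε2 hk
  have h13 : (|C| + 1) * h = |C| * h + 1 * h := by ring
  rw [h2, h6]
  linarith

/-- If `B = 0` then `A * (Y t - Y x) < 0` by monotonicity in `y`, and `t - x = o (Y t - Y x)`;
if `0 < B` then `Y t - Y x = -(A / B) (t - x) + o (t - x)`. -/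
theorem locB {p q : ℝ × ℝ → ℝ} {A B C D : ℝ} {Y : ℝ → ℝ} {x : ℝ}
    (hp : HasFDerivAt p (A • ContinuousLinearMap.fst ℝ ℝ ℝ + B • ContinuousLinearMap.snd ℝ ℝ ℝ) (x, Y x))
    (hq : HasFDerivAt q (C • ContinuousLinearMap.fst ℝ ℝ ℝ + D • ContinuousLinearMap.snd ℝ ℝ ℝ) (x, Y x))
    (hJ : 0 < A * D - B * C) (hB : 0 ≤ B)
    (hY : Tendsto Y (𝓝[>] x) (𝓝 (Y x)))
    (hc : ∀ᶠ t in 𝓝[>] x, p (t, Y t) = p (x, Y x))
    (hm : ∀ᶠ t in 𝓝[>] x, StrictMono fun y => p (t, y)) :
    ∀ᶠ t in 𝓝[>] x, q (t, Y t) < q (x, Y x) := by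
  rcases hB.eq_or_lt with hB0 | hB0
  · subst hB0
    have hJ' : 0 < A * D := by linarith
    have hA : 0 < |A| := abs_pos.2 (by rintro rfl; simp at hJ')
    have hD : 0 < |D| := abs_pos.2 (by rintro rfl; simp at hJ')
    obtain ⟨W, hW⟩ : ∃ W, W = 2 * (|C| + 1) / |A| + 1 := ⟨_, rfl⟩
    have hW0 : 0 < W := by rw [hW]; positivity
    obtain ⟨ε, hε⟩ : ∃ ε, ε = min 1 (min (|A| / 2) (|D| / (2 * W))) := ⟨_, rfl⟩
    have hεp : 0 < ε := by
      rw [hε]
      exact lt_min one_pos (lt_min (by positivity) (by positivity))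
    have hε1 : ε ≤ 1 := by rw [hε]; exact min_le_left _ _
    have hε2 : ε ≤ |A| / 2 := by rw [hε]; exact (min_le_right _ _).trans (min_le_left _ _)
    have hε3 : ε ≤ |D| / (2 * W) := by
      rw [hε]
      exact (min_le_right _ _).trans (min_le_right _ _)
    have hε4 : ε * W < |D| := by
      have h1 : ε * W ≤ |D| / (2 * W) * W := mul_le_mul_of_nonneg_right hε3 hW0.le
      have h2 : |D| / (2 * W) * W = |D| / 2 := by field_simp
      linarith
    have k1 := loc_key hp hεp hY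
    have k2 := loc_key hq hεp hY
    have k3 := loc_key hp hεp (tendsto_const_nhds (x := Y x))
    filter_upwards [k1, k2, k3, hc, hm, self_mem_nhdsWithin] with t t1 t2 t3 tc tm ht0
    have hh : 0 < t - x := sub_pos.2 ht0
    have hAk : A * (Y t - Y x) ≤ 0 := by
      rw [sub_self, mul_zero, add_zero, abs_zero, add_zero] at t3
      have t4 : |p (t, Y x) - p (x, Y x) - A * (t - x)| ≤ |A| / 2 * (t - x) :=
        t3.trans (mul_le_mul_of_nonneg_right hε2 hh.le)
      have t5 := abs_le.1 t4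
      have t6 : 0 < |A| / 2 * (t - x) := by positivity
      rcases lt_or_gt_of_ne (show A ≠ 0 from abs_pos.1 hA) with hA' | hA'
      · rw [abs_of_neg hA'] at t5 t6
        have t7 : p (t, Y x) < p (t, Y t) := by
          rw [tc]
          nlinarith [t5.2]
        have t8 := tm.lt_iff_lt.1 t7
        exact mul_nonpos_of_nonpos_of_nonneg hA'.le (by linarith)
      · rw [abs_of_pos hA'] at t5 t6
        have t7 : p (t, Y t) < p (t, Y x) := by
          rw [tc]
          nlinarith [t5.1]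
        have t8 := tm.lt_iff_lt.1 t7
        exact mul_nonpos_of_nonneg_of_nonpos hA'.le (by linarith)
    have h9 : q (t, Y t) - q (x, Y x) < 0 := by
      refine loc_zero (C := C) (e₁ := A * (t - x))
        (e₂ := q (t, Y t) - q (x, Y x) - (C * (t - x) + D * (Y t - Y x))) hA hJ' hh hεp hε1 hε2
        (by rw [← hW]; exact hε4) hAk rfl (by ring) ?_ t2
      rw [tc, sub_self, zero_mul, add_zero, zero_sub, abs_neg] at t1
      exact t1
    linarith
  · obtain ⟨L, hL⟩ : ∃ L, L = 2 * (|A| + B) / B := ⟨_, rfl⟩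
    have hL0 : 0 ≤ L := by rw [hL]; positivity
    obtain ⟨W, hW⟩ : ∃ W, W = (1 + L) * (|D| + B) := ⟨_, rfl⟩
    have hW0 : 0 < W := by rw [hW]; positivity
    obtain ⟨ε, hε⟩ : ∃ ε, ε = min (B / 2) ((A * D - B * C) / (2 * W)) := ⟨_, rfl⟩
    have hεp : 0 < ε := by
      rw [hε]
      exact lt_min (by positivity) (by positivity)
    have hε1 : ε ≤ B / 2 := by rw [hε]; exact min_le_left _ _
    have hε3 : ε ≤ (A * D - B * C) / (2 * W) := by rw [hε]; exact min_le_right _ _
    have hε4 : ε * W < A * D - B * C := by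
      have h1 : ε * W ≤ (A * D - B * C) / (2 * W) * W := mul_le_mul_of_nonneg_right hε3 hW0.le
      have h2 : (A * D - B * C) / (2 * W) * W = (A * D - B * C) / 2 := by field_simp
      linarith
    have k1 := loc_key hp hεp hY
    have k2 := loc_key hq hεp hY
    filter_upwards [k1, k2, hc, self_mem_nhdsWithin] with t t1 t2 tc ht0
    have hh : 0 < t - x := sub_pos.2 ht0
    have h9 : q (t, Y t) - q (x, Y x) < 0 := by
      refine loc_pos (e₁ := A * (t - x) + B * (Y t - Y x))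
        (e₂ := q (t, Y t) - q (x, Y x) - (C * (t - x) + D * (Y t - Y x))) hJ hB0 hh hL hεp hε1
        (by rw [← hW]; exact hε4) rfl (by ring) ?_ t2
      rw [tc, sub_self, zero_sub, abs_neg] at t1
      exact t1
    linarith

end Pool.Agent.Lib.MP_95cf14_ag.LI
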