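import Pool.Agent.Lib.MP_95cf14_ag.LI.Loc

/-! MP_95cf14_ag, LI. The function `q` decreases along a level curve of `p` (global form). -/

namespace Pool.Agent.Lib.MP_95cf14_ag.LI

open Filter Topology

private theorem glob_le {f : ℝ → ℝ} {a b : ℝ} (hab : a ≤ b) (hf : ContinuousOn f (Set.Icc a b))
    (h : ∀ x ∈ Set.Ico a b, ∀ᶠ t in 𝓝[>] x, f t < f x) : f b ≤ f a := by
  have hcl : IsClosed ({t | f t ≤ f a} ∩ Set.Icc a b) := by
    have h1 := hf.preimage_isClosed_of_isClosed isClosed_Icc (isClosed_Iic (a := f a))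
    rw [Set.inter_comm]
    exact h1
  have hsub := hcl.Icc_subset_of_forall_exists_gt (a := a) (b := b) (le_refl (f a)) (by
    intro x hx y hy
    have h1 : ∀ᶠ t in 𝓝[>] x, t ∈ Set.Ioc x y := Ioc_mem_nhdsGT hy
    obtain ⟨t, ht1, ht2⟩ := ((h x hx.2).and h1).exists
    exact ⟨t, le_trans ht1.le hx.1, ht2⟩)
  exact hsub (Set.right_mem_Icc.mpr hab)

private theorem glob_lt {f : ℝ → ℝ} {a b : ℝ} (hab : a < b) (hf : ContinuousOn f (Set.Icc a b))
    (h : ∀ x ∈ Set.Ico a b, ∀ᶠ t in 𝓝[>] x, f t < f x) : f b < f a := by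
  have h1 : ∀ᶠ t in 𝓝[>] a, t ∈ Set.Ioo a b := Ioo_mem_nhdsGT hab
  obtain ⟨t, ht1, ht2⟩ := ((h a ⟨le_refl a, hab⟩).and h1).exists
  have h2 : f b ≤ f t := glob_le ht2.2.le (hf.mono (Set.Icc_subset_Icc_left ht2.1.le))
    (fun x hx => h x ⟨ht2.1.le.trans hx.1, hx.2⟩)
  linarith

/-- as `stepA` (LC/StepA.lean), the continuity of the level function `Y` is proved there; then `locB` at
each point of `Ico` and `IsClosed.Icc_subset_of_forall_exists_gt` -/
theorem stepB (p px py q qx qy : ℝ × ℝ → ℝ)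
    (hp : ∀ z, HasFDerivAt p (px z • ContinuousLinearMap.fst ℝ ℝ ℝ + py z • ContinuousLinearMap.snd ℝ ℝ ℝ) z)
    (hq : ∀ z, HasFDerivAt q (qx z • ContinuousLinearMap.fst ℝ ℝ ℝ + qy z • ContinuousLinearMap.snd ℝ ℝ ℝ) z)
    (hJ : ∀ z, 0 < px z * qy z - py z * qx z) {x₁ x₂ : ℝ} (h12 : x₁ < x₂)
    (hm : ∀ x ∈ Set.Icc x₁ x₂, StrictMono fun y => p (x, y))
    (hsurj : ∀ x ∈ Set.Icc x₁ x₂, Function.Surjective fun y => p (x, y)) {y₁ y₂ : ℝ}
    (he : p (x₁, y₁) = p (x₂, y₂)) : q (x₂, y₂) < q (x₁, y₁) := by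
  have hpc : Continuous p := continuous_iff_continuousAt.mpr fun z => (hp z).continuousAt
  have hqc : Continuous q := continuous_iff_continuousAt.mpr fun z => (hq z).continuousAt
  have hpy : ∀ x y, HasDerivAt (fun y => p (x, y)) (py (x, y)) y := by
    intro x y
    have h3 : HasDerivAt (fun y => (x, y)) ((0 : ℝ), (1 : ℝ)) y :=
      (hasDerivAt_const y x).prodMk (hasDerivAt_id y)
    have h4 := (hp (x, y)).comp_hasDerivAt y h3
    have h5 : (px (x, y) • ContinuousLinearMap.fst ℝ ℝ ℝ +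
        py (x, y) • ContinuousLinearMap.snd ℝ ℝ ℝ) ((0 : ℝ), (1 : ℝ)) = py (x, y) := by
      change px (x, y) * 0 + py (x, y) * 1 = _
      ring
    rw [h5] at h4
    exact h4
  have hB : ∀ x ∈ Set.Icc x₁ x₂, ∀ y, 0 ≤ py (x, y) := by
    intro x hx y
    have h1 := (hm x hx).monotone.deriv_nonneg (x := y)
    rw [(hpy x y).deriv] at h1
    exact h1
  have hex : ∀ x, ∃ y, x ∈ Set.Icc x₁ x₂ → p (x, y) = p (x₁, y₁) := by
    intro x
    by_cases hx : x ∈ Set.Icc x₁ x₂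
    · obtain ⟨y, hy⟩ := hsurj x hx (p (x₁, y₁))
      exact ⟨y, fun _ => hy⟩
    · exact ⟨0, fun h => absurd h hx⟩
  choose Y hY using hex
  have hcont : ContinuousOn Y (Set.Icc x₁ x₂) := by
    intro x hx
    rw [ContinuousWithinAt, Metric.tendsto_nhds]
    intro ε hε
    have hlo : p (x, Y x - ε) < p (x₁, y₁) := by
      rw [← hY x hx]
      exact hm x hx (by linarith)
    have hhi : p (x₁, y₁) < p (x, Y x + ε) := by
      rw [← hY x hx]
      exact hm x hx (by linarith)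
    have hc1 : Continuous fun t => p (t, Y x - ε) := hpc.comp (continuous_id.prodMk continuous_const)
    have hc2 : Continuous fun t => p (t, Y x + ε) := hpc.comp (continuous_id.prodMk continuous_const)
    have e1 : ∀ᶠ t in 𝓝[Set.Icc x₁ x₂] x, p (t, Y x - ε) < p (x₁, y₁) :=
      mem_nhdsWithin_of_mem_nhds ((hc1.tendsto x).eventually (gt_mem_nhds hlo))
    have e2 : ∀ᶠ t in 𝓝[Set.Icc x₁ x₂] x, p (x₁, y₁) < p (t, Y x + ε) :=
      mem_nhdsWithin_of_mem_nhds ((hc2.tendsto x).eventually (lt_mem_nhds hhi))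
    filter_upwards [e1, e2, self_mem_nhdsWithin] with t h1 h2 ht
    rw [← hY t ht] at h1 h2
    have h3 := (hm t ht).lt_iff_lt.1 h1
    have h4 := (hm t ht).lt_iff_lt.1 h2
    rw [Real.dist_eq, abs_lt]
    constructor <;> linarith
  have hloc : ∀ x ∈ Set.Ico x₁ x₂, ∀ᶠ t in 𝓝[>] x, q (t, Y t) < q (x, Y x) := by
    intro x hx
    have hx' : x ∈ Set.Icc x₁ x₂ := ⟨hx.1, hx.2.le⟩
    have hin : ∀ᶠ t in 𝓝[>] x, t ∈ Set.Icc x₁ x₂ := by
      have h1 : ∀ᶠ t in 𝓝[>] x, t ∈ Set.Ioc x x₂ := Ioc_mem_nhdsGT hx.2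
      filter_upwards [h1] with t ht
      exact ⟨hx.1.trans ht.1.le, ht.2⟩
    have hYt : Tendsto Y (𝓝[>] x) (𝓝 (Y x)) := by
      refine (hcont x hx').mono_left ?_
      rw [nhdsWithin_le_iff]
      exact hin
    refine locB (hp (x, Y x)) (hq (x, Y x)) (hJ (x, Y x)) (hB x hx' (Y x)) hYt ?_ ?_
    · filter_upwards [hin] with t ht
      rw [hY t ht, hY x hx']
    · filter_upwards [hin] with t ht
      exact hm t ht
  have hL := Set.left_mem_Icc.mpr h12.le
  have hR := Set.right_mem_Icc.mpr h12.le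
  have hY1 : Y x₁ = y₁ := (hm x₁ hL).injective (hY x₁ hL)
  have hY2 : Y x₂ = y₂ := (hm x₂ hR).injective ((hY x₂ hR).trans he)
  have hfin := glob_lt (f := fun x => q (x, Y x)) h12
    (hqc.comp_continuousOn (continuousOn_id.prodMk hcont)) hloc
  simp only [hY1, hY2] at hfin
  exact hfin

end Pool.Agent.Lib.MP_95cf14_ag.LI
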